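import Pool.Agent.H26.Lib.R_pool_sql_team_seeded_3997aac3.Q5.BR.EC2

/-! Degree laws for the meromorphic continuation. -/

set_option autoImplicit false
set_option linter.unusedSectionVars false

namespace Pool.Agent.Q5.BR

open NumberField IsDedekindDomain Filter Pool.Agent.H341R2 Pool.Agent.H341R2.EC
  Pool.Agent.H921R2.TatePole Pool.Agent.W353.NF Pool.Agent.W401.Cheb
open Pool.Agent.TH322.BC.Edge (MinimalModels)

open Pool.Agent.TH322.BC.Edge renaming LSeries → LS

section
variable {K : Type} [Field K] [NumberField K]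

/-- the power `L^t` of the Euler product has a meromorphic continuation -/
def PowC (V : HeightOneSpectrum (𝓞 K) → WeierstrassCurve (𝓞 K)) (t : ℤ) : Prop :=
  ∃ f : ℂ → ℂ, MeromorphicOn f Set.univ ∧ ∀ s : ℂ, 3 / 2 < s.re → f s = (LS V s) ^ t

theorem PowC.zero (V : HeightOneSpectrum (𝓞 K) → WeierstrassCurve (𝓞 K)) : PowC V 0 :=
  ⟨fun _ => 1, fun _ _ => MeromorphicAt.const _ _, fun _ _ => (zpow_zero _).symm⟩

theorem PowC.add {E : WeierstrassCurve K} (hE : E.IsElliptic)
    {V : HeightOneSpectrum (𝓞 K) → WeierstrassCurve (𝓞 K)} (hV : MinimalModels E V) {t u : ℤ}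
    (ht : PowC V t) (hu : PowC V u) : PowC V (t + u) := by
  obtain ⟨f, hf, hf'⟩ := ht
  obtain ⟨g, hg, hg'⟩ := hu
  refine ⟨fun s => f s * g s, fun s hs => (hf s hs).mul (hg s hs), fun s hs => ?_⟩
  change f s * g s = _
  rw [hf' s hs, hg' s hs, zpow_add₀ (LSeries_ne_zero hE hV hs)]

theorem PowC.neg {V : HeightOneSpectrum (𝓞 K) → WeierstrassCurve (𝓞 K)} {t : ℤ}
    (ht : PowC V t) : PowC V (-t) := by
  obtain ⟨f, hf, hf'⟩ := ht
  refine ⟨fun s => (f s)⁻¹, fun s hs => (hf s hs).inv, fun s hs => ?_⟩
  change (f s)⁻¹ = _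
  rw [hf' s hs, zpow_neg]

/-- the subgroup of the exponents -/
def powGroup {E : WeierstrassCurve K} (hE : E.IsElliptic)
    {V : HeightOneSpectrum (𝓞 K) → WeierstrassCurve (𝓞 K)} (hV : MinimalModels E V) :
    AddSubgroup ℤ where
  carrier := {t | PowC V t}
  zero_mem' := PowC.zero V
  add_mem' := fun ht hu => PowC.add hE hV ht hu
  neg_mem' := fun ht => PowC.neg ht

/-- the exponents: `gcd` -/
theorem powC_one_of {E : WeierstrassCurve K} (hE : E.IsElliptic)
    {V : HeightOneSpectrum (𝓞 K) → WeierstrassCurve (𝓞 K)} (hV : MinimalModels E V)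
    {D : Set ℕ} (hD : ∀ g : ℕ, (∀ d ∈ D, g ∣ d) → g = 1) (h : ∀ d ∈ D, PowC V (d : ℤ)) :
    PowC V 1 := by
  obtain ⟨g, hg⟩ := Int.subgroup_cyclic (powGroup hE hV)
  rw [← AddSubgroup.zmultiples_eq_closure] at hg
  have h1 : g.natAbs = 1 := by
    apply hD
    intro d hd
    have h2 : (d : ℤ) ∈ powGroup hE hV := h d hd
    rw [hg, Int.mem_zmultiples_iff] at h2
    rwa [← Int.natCast_dvd_natCast, Int.natCast_natAbs, abs_dvd]
  have h3 : (1 : ℤ) ∈ powGroup hE hV := by
    rw [hg, Int.mem_zmultiples_iff]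
    rcases Int.natAbs_eq g with h4 | h4
    · rw [h4, h1]; norm_num
    · rw [h4, h1]; norm_num
  exact h3

/-- the same for all minimal models -/
def PowAll (E : WeierstrassCurve K) (t : ℤ) : Prop :=
  ∀ V : HeightOneSpectrum (𝓞 K) → WeierstrassCurve (𝓞 K), MinimalModels E V → PowC V t

/-- **One step.** -/
theorem step {E : WeierstrassCurve K} (hE : E.IsElliptic) (p : ℕ) [hp : Fact p.Prime]
    {T : Set ℕ} (hpr : ∀ l ∈ T, l.Prime) (hinf : T.Infinite) (t : ℤ)
    (h : ∀ (F : Type) [Field F] [NumberField F] [Algebra K F], IsRadical T p K F →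
      (Module.finrank K F = p ∨ Module.finrank K F = p ^ 2) →
      PowAll (E.map (algebraMap K F)) t) : PowAll E ((p : ℤ) * t) := by
  classical
  intro V₀ hV₀
  obtain ⟨ι, _, X, n, hdeg, hrad, hrel⟩ := exists_relation K p hpr hinf
  have hEj : ∀ j, (E.map (algebraMap K (X j).F)).IsElliptic := fun j => inferInstance
  choose V hV using fun j => exists_minimalModels (E.map (algebraMap K (X j).F)) (hEj j)
  obtain ⟨S, hS⟩ := LS_pow (m := (p : ℤ)) hrel hE hV₀ hV
  choose f hf hf' using fun j => h (X j).F (hrad j) (hdeg j) (V j) (hV j)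
  refine ⟨fun s => (Rfun n p V₀ V S s) ^ t * ∏ j, (f j s) ^ (n j), fun s hs => ?_, fun s hs => ?_⟩
  · refine MeromorphicAt.fun_mul ?_ (MeromorphicAt.fun_prod fun j _ => ?_)
    · exact MeromorphicAt.fun_zpow (Rfun_meromorphic n p V₀ V S s hs) t
    · exact MeromorphicAt.fun_zpow (hf j s hs) (n j)
  · rw [zpow_mul, hS s hs, mul_zpow]
    change _ * (∏ j, (f j s) ^ (n j)) = _
    congr 1
    rw [← Finset.prod_zpow]
    refine Finset.prod_congr rfl fun j _ => ?_
    rw [hf' j s hs, ← zpow_mul, ← zpow_mul, mul_comm]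

/-- **The power law.** -/
theorem power_law {E : WeierstrassCurve K} (hE : E.IsElliptic) {M : ℕ}
    (h : ∀ (F : Type) [Field F] [NumberField F] [Algebra K F], M ∣ Module.finrank K F →
      PowAll (E.map (algebraMap K F)) 1) (c : ℕ) :
    ∀ (F : Type) [Field F] [NumberField F] [Algebra K F], M ∣ Module.finrank K F * c →
      PowAll (E.map (algebraMap K F)) c := by
  classical
  induction c using Nat.strong_induction_on with
  | _ c ih =>
    intro F _ _ _ hM
    rcases Nat.eq_zero_or_pos c with rfl | hc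
    · intro V _
      exact_mod_cast PowC.zero V
    rcases Nat.eq_or_lt_of_le (Nat.succ_le_of_lt hc) with h1 | h1
    · have hc1 : c = 1 := h1.symm
      subst hc1
      rw [mul_one] at hM
      exact_mod_cast h F hM
    · obtain ⟨p, hp, c', rfl⟩ := Nat.exists_prime_and_dvd (show c ≠ 1 by omega)
      have hpf : Fact p.Prime := ⟨hp⟩
      have hc' : 0 < c' := Nat.pos_of_mul_pos_left hc
      have hlt : c' < p * c' := by
        have := hp.two_le
        nlinarith
      have hEF : (E.map (algebraMap K F)).IsElliptic := inferInstance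
      have hinf : {l : ℕ | l.Prime}.Infinite := Nat.infinite_setOfPred_prime
      have h2 := step hEF p (T := {l : ℕ | l.Prime}) (fun l hl => hl) hinf (c' : ℤ) (by
        intro F' _ _ _ _ hdeg
        let _ : Algebra K F' := ((algebraMap F F').comp (algebraMap K F)).toAlgebra
        have : IsScalarTower K F F' := IsScalarTower.of_algebraMap_eq fun x => rfl
        have h3 : M ∣ Module.finrank K F' * c' := by
          rw [← Module.finrank_mul_finrank K F F']
          rcases hdeg with h4 | h4
          · rw [h4, mul_assoc]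
            exact hM
          · rw [h4, sq, mul_assoc, mul_assoc, mul_left_comm]
            exact hM.mul_left p
        have h5 := ih c' hlt F' h3
        rw [WeierstrassCurve.map_map]
        exact h5)
      have h6 : ((p * c' : ℕ) : ℤ) = (p : ℤ) * (c' : ℤ) := by push_cast; rfl
      rw [h6]
      exact h2

/-- **The power law in radical extensions.** -/
theorem power_law_radical {E : WeierstrassCurve K} (hE : E.IsElliptic) (p : ℕ)
    [hp : Fact p.Prime] {T : Set ℕ} (hpr : ∀ l ∈ T, l.Prime) (hinf : T.Infinite) (k : ℕ)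
    (h : ∀ (F : Type) [Field F] [NumberField F] [Algebra K F], IsRadical T p K F →
      p ^ k ∣ Module.finrank K F → PowAll (E.map (algebraMap K F)) 1) (t : ℕ) :
    ∀ (F : Type) [Field F] [NumberField F] [Algebra K F], IsRadical T p K F →
      p ^ k ∣ Module.finrank K F * p ^ t → PowAll (E.map (algebraMap K F)) ((p ^ t : ℕ) : ℤ) := by
  classical
  induction t with
  | zero =>
    intro F _ _ _ hr hM
    rw [pow_zero, mul_one] at hM
    exact_mod_cast h F hr hM
  | succ t ih =>
    intro F _ _ _ hr hM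
    have hEF : (E.map (algebraMap K F)).IsElliptic := inferInstance
    have h2 := step hEF p hpr hinf ((p ^ t : ℕ) : ℤ) (by
      intro F' _ _ _ hr' hdeg
      let _ : Algebra K F' := ((algebraMap F F').comp (algebraMap K F)).toAlgebra
      have : IsScalarTower K F F' := IsScalarTower.of_algebraMap_eq fun x => rfl
      have h3 : p ^ k ∣ Module.finrank K F' * p ^ t := by
        rw [← Module.finrank_mul_finrank K F F']
        rw [pow_succ'] at hM
        rcases hdeg with h4 | h4
        · rw [h4, mul_assoc]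
          exact hM
        · rw [h4, sq, mul_assoc, mul_assoc, mul_left_comm]
          exact hM.mul_left p
      have h5 := ih F' (hr.trans hr') h3
      rw [WeierstrassCurve.map_map]
      exact h5)
    have h6 : ((p ^ (t + 1) : ℕ) : ℤ) = (p : ℤ) * ((p ^ t : ℕ) : ℤ) := by push_cast; ring
    rw [h6]
    exact h2

end

end Pool.Agent.Q5.BR
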