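import Pool.Agent.H26.Lib.R_pool_sql_team_seeded_3997aac3.Q5.BR.Gen
import Pool.Agent.H26.Lib.R_pool_sql_team_seeded_3997aac3.Q5.BR.Root

/-! The relation between the radical extensions of `K` of degrees `p` and `p²`. -/

set_option autoImplicit false
set_option linter.unusedSectionVars false

namespace Pool.Agent.Q5.BR

open NumberField IsDedekindDomain Filter Pool.Agent.W401.Cheb Pool.Agent.W353.NF Polynomial

section
variable {K : Type} [Field K] [NumberField K]

theorem Rt_eq (p : ℕ) (c : K) (σ : GK K) :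
    Rt p c σ = Rr p ((σ : AlgebraicClosure K →ₐ[K] AlgebraicClosure K) :
      AlgebraicClosure K →+* AlgebraicClosure K) (algebraMap K (AlgebraicClosure K) c) := rfl

theorem Rt_rel {p : ℕ} [hp : Fact p.Prime] {a b : K} (ha : a ≠ 0) (hb : b ≠ 0) (σ : GK K) :
    ∑ i ∈ Finset.range p, Rt p (a * b ^ i) σ + Rt p b σ = p + Rt p a σ * Rt p b σ := by
  have hinj := (algebraMap K (AlgebraicClosure K)).injective
  have h := Rr_rel (p := p) ((σ : AlgebraicClosure K →ₐ[K] AlgebraicClosure K) :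
      AlgebraicClosure K →+* AlgebraicClosure K) (a := algebraMap K (AlgebraicClosure K) a)
      (b := algebraMap K (AlgebraicClosure K) b)
      ((map_ne_zero_iff _ hinj).2 ha) ((map_ne_zero_iff _ hinj).2 hb) (σ.commutes a) (σ.commutes b)
  simp only [Rt_eq, map_mul, map_pow]
  exact h

variable (K) in
/-- **The relation.**  The radical extensions `K((a b^i)^{1/p})`, `K(b^{1/p})`, `K(a^{1/p}, b^{1/p})`. -/
theorem exists_relation (p : ℕ) [hp : Fact p.Prime] {T : Set ℕ} (hpr : ∀ l ∈ T, l.Prime)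
    (hinf : T.Infinite) :
    ∃ (ι : Type) (_ : Fintype ι) (X : ι → Ext K) (n : ι → ℤ),
      (∀ j, Module.finrank K (X j).F = p ∨ Module.finrank K (X j).F = p ^ 2) ∧
      (∀ j, IsRadical T p K (X j).F) ∧
      ∀ σ : GK K, ∑ j, n j * (fixn K (X j).F σ : ℤ) = p := by
  classical
  obtain ⟨l₂, hl₂T, hb⟩ := exists_prime_not_pow K hp.out.two_le hpr hinf
  have hl₂ := hpr l₂ hl₂T
  have hb' : Irreducible (pol p (l₂ : K)) := X_pow_sub_C_irreducible_of_prime hp.out hb
  let _ : Fact (Irreducible (pol p (l₂ : K))) := ⟨hb'⟩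
  let L := AdjoinRoot (pol p (l₂ : K))
  let iL : NumberField L := numberField_rd
  obtain ⟨l₁, hl₁T, ha⟩ := exists_prime_not_pow L hp.out.two_le hpr hinf
  have hl₁ := hpr l₁ hl₁T
  have ha' : Irreducible (pol p (l₁ : L)) := X_pow_sub_C_irreducible_of_prime hp.out ha
  let _ : Fact (Irreducible (pol p (l₁ : L))) := ⟨ha'⟩
  let M := AdjoinRoot (pol p (l₁ : L))
  let iM : NumberField M := numberField_rd
  have hl₁K : (l₁ : K) ≠ 0 := by exact_mod_cast hl₁.ne_zero
  have hl₂K : (l₂ : K) ≠ 0 := by exact_mod_cast hl₂.ne_zero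
  have hroot : (AdjoinRoot.root (pol p (l₂ : K)) : L) ^ p = (l₂ : L) := by
    have h1 := AdjoinRoot.eval₂_root (pol p (l₂ : K))
    unfold pol at h1
    rw [eval₂_sub, eval₂_pow, eval₂_X, eval₂_C, sub_eq_zero, map_natCast] at h1
    exact h1
  have hab : ∀ (i : ℕ) (x : K), x ^ p ≠ (l₁ : K) * (l₂ : K) ^ i := by
    intro i x hx
    have hβ0 : (AdjoinRoot.root (pol p (l₂ : K)) : L) ≠ 0 := by
      intro h
      rw [h, zero_pow hp.out.ne_zero] at hroot
      have : (l₂ : L) ≠ 0 := by exact_mod_cast hl₂.ne_zero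
      exact this hroot.symm
    apply ha (algebraMap K L x / (AdjoinRoot.root (pol p (l₂ : K)) : L) ^ i)
    have h2 := congrArg (algebraMap K L) hx
    rw [map_pow, map_mul, map_pow, map_natCast, map_natCast] at h2
    rw [div_pow, h2, ← pow_mul, mul_comm i p, pow_mul, hroot]
    have : (l₂ : L) ^ i ≠ 0 := pow_ne_zero _ (by exact_mod_cast hl₂.ne_zero)
    exact mul_div_cancel_right₀ _ this
  have hirr : ∀ i : ℕ, Irreducible (pol p ((l₁ : K) * (l₂ : K) ^ i)) := fun i =>
    X_pow_sub_C_irreducible_of_prime hp.out (hab i)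
  have hfac : ∀ i : ℕ, Fact (Irreducible (pol p ((l₁ : K) * (l₂ : K) ^ i))) := fun i => ⟨hirr i⟩
  have hnf : ∀ i : ℕ, NumberField (AdjoinRoot (pol p ((l₁ : K) * (l₂ : K) ^ i))) := fun i =>
    numberField_rd
  let X : Fin p ⊕ Bool → Ext K := Sum.elim
    (fun i => @Ext.mk K _ _ (AdjoinRoot (pol p ((l₁ : K) * (l₂ : K) ^ (i : ℕ)))) _ (hnf i) _)
    (fun t => if t then @Ext.mk K _ _ L _ iL _ else @Ext.mk K _ _ M _ iM _)
  let n : Fin p ⊕ Bool → ℤ := Sum.elim (fun _ => 1) (fun t => if t then 1 else -1)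
  have hl₂d : ∀ l : ℕ, l.Prime → l ∣ l₂ → l ∈ T := by
    intro l hl hd
    rwa [(Nat.prime_dvd_prime_iff_eq hl hl₂).1 hd]
  have hl₁d : ∀ l : ℕ, l.Prime → l ∣ l₁ → l ∈ T := by
    intro l hl hd
    rwa [(Nat.prime_dvd_prime_iff_eq hl hl₁).1 hd]
  have hrL : IsRadical T p K L := isRadical_rd hl₂.ne_zero hl₂d
  have hrM : IsRadical T p L M := isRadical_rd hl₁.ne_zero hl₁d
  have hrab : ∀ i : ℕ, IsRadical T p K (AdjoinRoot (pol p ((l₁ : K) * (l₂ : K) ^ i))) := by
    intro i
    have e : (l₁ : K) * (l₂ : K) ^ i = ((l₁ * l₂ ^ i : ℕ) : K) := by push_cast; rfl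
    have hf : Fact (Irreducible (pol p ((l₁ * l₂ ^ i : ℕ) : K))) := ⟨e ▸ hirr i⟩
    have h1 := isRadical_rd (T := T) (p := p) (L := K) (c := l₁ * l₂ ^ i)
      (mul_ne_zero hl₁.ne_zero (pow_ne_zero _ hl₂.ne_zero)) (by
        intro l hl hd
        rcases (Nat.Prime.dvd_mul hl).1 hd with h2 | h2
        · exact hl₁d l hl h2
        · exact hl₂d l hl (hl.dvd_of_dvd_pow h2))
    have key : ∀ (c c' : K) (hc : c = c') (i1 : Fact (Irreducible (pol p c)))
        (i2 : Fact (Irreducible (pol p c'))), IsRadical T p K (AdjoinRoot (pol p c)) →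
        IsRadical T p K (AdjoinRoot (pol p c')) := by
      rintro c c' rfl i1 i2 h
      exact h
    exact key _ _ e.symm hf (hfac i) h1
  refine ⟨Fin p ⊕ Bool, inferInstance, X, n, ?_, ?_, ?_⟩
  · rintro (i | t)
    · left
      exact finrank_rd hp.out.pos _
    · cases t with
      | true =>
        left
        exact finrank_rd hp.out.pos _
      | false =>
        right
        change Module.finrank K M = p ^ 2
        have h1 : Module.Finite K L := finite_rd hp.out.pos _
        have h2 : Module.Finite L M := finite_rd hp.out.pos _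
        rw [← Module.finrank_mul_finrank K L M, sq]
        congr 1
        · exact finrank_rd hp.out.pos _
        · exact finrank_rd hp.out.pos _
  · rintro (i | t)
    · exact hrab i
    · cases t with
      | true => exact hrL
      | false =>
        change IsRadical T p K M
        exact hrL.trans hrM
  · intro σ
    rw [Fintype.sum_sum_type, Fintype.sum_bool]
    have h1 : ∀ i : Fin p, n (Sum.inl i) * (fixn K (X (Sum.inl i)).F σ : ℤ) =
        (Rt p ((l₁ : K) * (l₂ : K) ^ (i : ℕ)) σ : ℤ) := by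
      intro i
      have h := fixn_rd (K := K) (L := K) (p := p) (c := (l₁ : K) * (l₂ : K) ^ (i : ℕ))
        ((l₁ : K) * (l₂ : K) ^ (i : ℕ)) rfl (hnf i) σ
      rw [fixn_self, one_mul] at h
      change (1 : ℤ) * ((fixn K (AdjoinRoot (pol p ((l₁ : K) * (l₂ : K) ^ (i : ℕ)))) σ : ℕ) : ℤ) = _
      rw [h, one_mul]
    have h2 : fixn K L σ = Rt p (l₂ : K) σ := by
      have h := fixn_rd (K := K) (L := K) (p := p) (c := (l₂ : K)) (l₂ : K) rfl iL σ
      rwa [fixn_self, one_mul] at h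
    have h3 : fixn K M σ = Rt p (l₂ : K) σ * Rt p (l₁ : K) σ := by
      have h := fixn_rd (K := K) (L := L) (p := p) (c := (l₁ : L)) (l₁ : K)
        (by rw [map_natCast]) iM σ
      rwa [h2] at h
    have h4 : n (Sum.inr true) * (fixn K (X (Sum.inr true)).F σ : ℤ) = (Rt p (l₂ : K) σ : ℤ) := by
      change (1 : ℤ) * ((fixn K L σ : ℕ) : ℤ) = _
      rw [h2, one_mul]
    have h5 : n (Sum.inr false) * (fixn K (X (Sum.inr false)).F σ : ℤ) =
        -((Rt p (l₂ : K) σ : ℤ) * (Rt p (l₁ : K) σ : ℤ)) := by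
      change (-1 : ℤ) * ((fixn K M σ : ℕ) : ℤ) = _
      rw [h3]
      push_cast
      ring
    rw [Finset.sum_congr rfl fun i _ => h1 i, h4, h5]
    have h6 := congrArg (fun z : ℕ => (z : ℤ)) (Rt_rel (p := p) hl₁K hl₂K σ)
    simp only [Nat.cast_add, Nat.cast_sum, Nat.cast_mul] at h6
    rw [Finset.sum_range] at h6
    linear_combination h6

end

end Pool.Agent.Q5.BR
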