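import Pool.Agent.H26.Lib.R_pool_sql_team_seeded_3997aac3.Q5.BR.EC
import Pool.Agent.H26.Lib.R_pool_sql_team_seeded_3997aac3.Q5.BR.RadRel

/-! The Euler products of an elliptic curve over the fields in a relation. -/

set_option autoImplicit false
set_option linter.unusedSectionVars false

namespace Pool.Agent.Q5.BR

open NumberField IsDedekindDomain Filter Pool.Agent.H341R2 Pool.Agent.H341R2.EC
  Pool.Agent.H921R2.TatePole Pool.Agent.W353.NF Pool.Agent.W401.Cheb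
open Pool.Agent.TH322.BC.Edge (MinimalModels)

open Pool.Agent.TH322.BC.Edge renaming LSeries → LS

section
variable {K F : Type} [Field K] [NumberField K] [Field F] [NumberField F] [Algebra K F]

/-- the local term for the extension of degree `d` of the residue field -/
noncomputable def Zf (W : WeierstrassCurve (𝓞 K)) (v : HeightOneSpectrum (𝓞 K)) (d : ℕ)
    (s : ℂ) : ℂ :=
  ((((nm v ^ d : ℕ) : ℤ) - ((exists_aff (red v W) d).choose : ℤ) : ℤ) : ℂ) *
    ((nm v ^ d : ℕ) : ℂ) ^ (-s) - 1 * ((nm v ^ d : ℕ) : ℂ) ^ (1 - 2 * s)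

theorem zz_eq {E : WeierstrassCurve K} {W : WeierstrassCurve (𝓞 K)} (hW : IsModel E W)
    {V : HeightOneSpectrum (𝓞 F) → WeierstrassCurve (𝓞 F)}
    (hV : MinimalModels (E.map (algebraMap K F)) V) {w : HeightOneSpectrum (𝓞 F)}
    (h : 6 * W.Δ ∉ (w.under (𝓞 K)).asIdeal) (s : ℂ) :
    zz V w s = Zf W (w.under (𝓞 K)) (rdeg K w) s := by
  classical
  have hWF : IsModel (E.map (algebraMap K F)) (W.map (algebraMap (𝓞 K) (𝓞 F))) := isModel_map hW
  have h' : 6 * (W.map (algebraMap (𝓞 K) (𝓞 F))).Δ ∉ w.asIdeal := by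
    rw [WeierstrassCurve.map_Δ]
    intro h1
    apply h
    change algebraMap (𝓞 K) (𝓞 F) (6 * W.Δ) ∈ w.asIdeal
    rwa [map_mul, map_ofNat]
  obtain ⟨h6, hWΔ, hVΔ⟩ := good_of_model hV hWF h'
  have hlo : w.asIdeal.LiesOver (w.under (𝓞 K)).asIdeal := ⟨rfl⟩
  have h1 : aff (red w (V w)) = aff (red w (W.map (algebraMap (𝓞 K) (𝓞 F)))) :=
    aff_model (hV w).1 hWF hVΔ hWΔ h6
  have h2 : red w (W.map (algebraMap (𝓞 K) (𝓞 F))) =
      (red (w.under (𝓞 K)) W).map
        (algebraMap (𝓞 K ⧸ (w.under (𝓞 K)).asIdeal) (𝓞 F ⧸ w.asIdeal)) := by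
    unfold red
    rw [WeierstrassCurve.map_map, WeierstrassCurve.map_map]
    rfl
  have h3 : Module.finrank (𝓞 K ⧸ (w.under (𝓞 K)).asIdeal) (𝓞 F ⧸ w.asIdeal) = rdeg K w := by
    unfold rdeg
    rw [Ideal.inertiaDeg'_algebraMap]
  have h4 := (exists_aff (red (w.under (𝓞 K)) W) (rdeg K w)).choose_spec (𝓞 F ⧸ w.asIdeal)
    (by rw [h3]; exact rdeg_pos w) h3
  have h5 : nm w = nm (w.under (𝓞 K)) ^ rdeg K w := absNorm_rdeg w
  unfold zz Zf
  rw [if_neg hVΔ, h5, h1, h2, h4]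

end

section
variable {K : Type} [Field K] [NumberField K] {ι : Type} [Fintype ι]

/-- **The relation between the Euler products.** -/
theorem LS_rel {X : ι → Ext K} {n : ι → ℤ} (h : Rel X n) {E : WeierstrassCurve K}
    (hE : E.IsElliptic)
    {V : ∀ j, HeightOneSpectrum (𝓞 (X j).F) → WeierstrassCurve (𝓞 (X j).F)}
    (hV : ∀ j, MinimalModels (E.map (algebraMap K (X j).F)) (V j)) :
    ∃ S : Finset (HeightOneSpectrum (𝓞 K)), ∀ s : ℂ, 3 / 2 < s.re →
      ∏ j, (LS (V j) s) ^ (n j) =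
        ∏ v ∈ S, ∏ j, (∏ w ∈ above (X j).F v, (1 - zz (V j) w s)⁻¹) ^ (n j) := by
  classical
  obtain ⟨W, hW⟩ := exists_model E
  have h0 : 6 * W.Δ ≠ 0 := mul_ne_zero (by norm_num) (model_Δ hE hW)
  obtain ⟨S₀, hS₀⟩ := euler_rel h
  refine ⟨S₀ ∪ (finite_mem h0).toFinset, fun s hs => ?_⟩
  have hEj : ∀ j, (E.map (algebraMap K (X j).F)).IsElliptic := fun j => inferInstance
  have h1 := hS₀ (S₀ ∪ (finite_mem h0).toFinset) Finset.subset_union_left
    (fun j w => ell (V j) w s) (fun v d => -Complex.log (1 - Zf W v d s))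
    (fun j => summable_ell (hEj j) (hV j) hs) (by
      intro j w hw
      have h2 : 6 * W.Δ ∉ (w.under (𝓞 K)).asIdeal := by
        intro h3
        apply hw
        rw [Finset.mem_union]
        right
        rw [Set.Finite.mem_toFinset]
        exact h3
      unfold ell
      rw [zz_eq hW (hV j) h2])
  have h2 := congrArg Complex.exp h1
  rw [Complex.exp_sum, Complex.exp_sum] at h2
  have h3 : ∀ j, Complex.exp ((n j : ℂ) * ∑' w, ell (V j) w s) = (LS (V j) s) ^ (n j) := by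
    intro j
    rw [Complex.exp_int_mul, ← LSeries_exp (hEj j) (hV j) hs]
  have h4 : ∀ v : HeightOneSpectrum (𝓞 K),
      Complex.exp (∑ j, (n j : ℂ) * ∑ w ∈ above (X j).F v, ell (V j) w s) =
      ∏ j, (∏ w ∈ above (X j).F v, (1 - zz (V j) w s)⁻¹) ^ (n j) := by
    intro v
    rw [Complex.exp_sum]
    refine Finset.prod_congr rfl fun j _ => ?_
    rw [Complex.exp_int_mul, Complex.exp_sum]
    congr 1
    exact Finset.prod_congr rfl fun w _ => exp_ell (V j) w hs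
  rw [Finset.prod_congr rfl fun j _ => h3 j, Finset.prod_congr rfl fun v _ => h4 v] at h2
  exact h2

/-- the finite part of the relation -/
noncomputable def Rfun {X : ι → Ext K} (n : ι → ℤ) (m : ℤ)
    (V₀ : HeightOneSpectrum (𝓞 K) → WeierstrassCurve (𝓞 K))
    (V : ∀ j, HeightOneSpectrum (𝓞 (X j).F) → WeierstrassCurve (𝓞 (X j).F))
    (S : Finset (HeightOneSpectrum (𝓞 K))) (s : ℂ) : ℂ :=
  ∏ v ∈ S, ((∏ w ∈ above K v, (1 - zz V₀ w s)⁻¹) ^ m *
    ∏ j, (∏ w ∈ above (X j).F v, (1 - zz (V j) w s)⁻¹) ^ (-n j))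

theorem Rfun_meromorphic {X : ι → Ext K} (n : ι → ℤ) (m : ℤ)
    (V₀ : HeightOneSpectrum (𝓞 K) → WeierstrassCurve (𝓞 K))
    (V : ∀ j, HeightOneSpectrum (𝓞 (X j).F) → WeierstrassCurve (𝓞 (X j).F))
    (S : Finset (HeightOneSpectrum (𝓞 K))) : MeromorphicOn (Rfun n m V₀ V S) Set.univ := by
  intro s _
  unfold Rfun
  refine MeromorphicAt.fun_prod fun v _ => ?_
  refine MeromorphicAt.fun_mul ?_ (MeromorphicAt.fun_prod fun j _ => ?_)
  · exact MeromorphicAt.fun_zpow (MeromorphicAt.fun_prod fun w _ => meromorphic_fac _ _ _) _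
  · exact MeromorphicAt.fun_zpow (MeromorphicAt.fun_prod fun w _ => meromorphic_fac _ _ _) _

/-- **The power of `L(E/K, s)` in the relation.** -/
theorem LS_pow {X : ι → Ext K} {n : ι → ℤ} {m : ℤ}
    (h : ∀ σ : GK K, ∑ j, n j * (fixn K (X j).F σ : ℤ) = m) {E : WeierstrassCurve K}
    (hE : E.IsElliptic) {V₀ : HeightOneSpectrum (𝓞 K) → WeierstrassCurve (𝓞 K)}
    (hV₀ : MinimalModels E V₀)
    {V : ∀ j, HeightOneSpectrum (𝓞 (X j).F) → WeierstrassCurve (𝓞 (X j).F)}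
    (hV : ∀ j, MinimalModels (E.map (algebraMap K (X j).F)) (V j)) :
    ∃ S : Finset (HeightOneSpectrum (𝓞 K)), ∀ s : ℂ, 3 / 2 < s.re →
      (LS V₀ s) ^ m = Rfun n m V₀ V S s * ∏ j, (LS (V j) s) ^ (n j) := by
  classical
  let X' : Option ι → Ext K := fun o => o.elim (Ext.mk K) X
  let n' : Option ι → ℤ := fun o => o.elim (-m) n
  let V' : ∀ j : Option ι, HeightOneSpectrum (𝓞 (X' j).F) → WeierstrassCurve (𝓞 (X' j).F) :=
    fun o => match o with
      | none => V₀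
      | some j => V j
  have hrel : Rel X' n' := by
    intro σ
    rw [Fintype.sum_option]
    change (-m) * (fixn K K σ : ℤ) + ∑ j, n j * (fixn K (X j).F σ : ℤ) = 0
    rw [h σ, fixn_self]
    push_cast
    ring
  have hV' : ∀ j, MinimalModels (E.map (algebraMap K (X' j).F)) (V' j) := by
    rintro (_ | j)
    · change MinimalModels (E.map (algebraMap K K)) V₀
      rw [Algebra.algebraMap_self, WeierstrassCurve.map_id]
      exact hV₀
    · exact hV j
  obtain ⟨S, hS⟩ := LS_rel hrel hE hV'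
  refine ⟨S, fun s hs => ?_⟩
  have h1 := hS s hs
  rw [Fintype.prod_option] at h1
  have h2 : (LS V₀ s) ^ (-m) * ∏ j, (LS (V j) s) ^ (n j) =
      ∏ v ∈ S, ((∏ w ∈ above K v, (1 - zz V₀ w s)⁻¹) ^ (-m) *
        ∏ j, (∏ w ∈ above (X j).F v, (1 - zz (V j) w s)⁻¹) ^ (n j)) := by
    refine h1.trans (Finset.prod_congr rfl fun v _ => ?_)
    rw [Fintype.prod_option]
    rfl
  have hne : LS V₀ s ≠ 0 := LSeries_ne_zero hE hV₀ hs
  have h3 : Rfun n m V₀ V S s = (∏ v ∈ S, ((∏ w ∈ above K v, (1 - zz V₀ w s)⁻¹) ^ (-m) *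
        ∏ j, (∏ w ∈ above (X j).F v, (1 - zz (V j) w s)⁻¹) ^ (n j)))⁻¹ := by
    unfold Rfun
    rw [← Finset.prod_inv_distrib]
    refine Finset.prod_congr rfl fun v _ => ?_
    rw [mul_inv, ← zpow_neg, neg_neg, ← Finset.prod_inv_distrib]
    congr 1
    exact Finset.prod_congr rfl fun j _ => by rw [zpow_neg]
  have hne2 : ∏ j, (LS (V j) s) ^ (n j) ≠ 0 := by
    refine Finset.prod_ne_zero_iff.2 fun j _ => zpow_ne_zero _ ?_
    have hEj : (E.map (algebraMap K (X j).F)).IsElliptic := inferInstance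
    exact LSeries_ne_zero hEj (hV j) hs
  rw [h3, ← h2, mul_inv, zpow_neg, inv_inv, mul_assoc, inv_mul_cancel₀ hne2, mul_one]

end

end Pool.Agent.Q5.BR
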