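import Pool.Agent.H26.Lib.R_pool_sql_team_seeded_3997aac3.Q5.BR.Rad2

/-! Extensions generated by `p`-th roots of products of primes of a given set. -/

set_option autoImplicit false
set_option linter.unusedSectionVars false

namespace Pool.Agent.Q5.BR

open NumberField IsDedekindDomain Filter Polynomial

/-- `F` is generated over `K` by finitely many `p`-th roots of positive integers all of whose prime
factors belong to `T`. -/
def IsRadical (T : Set ℕ) (p : ℕ) (K F : Type) [Field K] [Field F] [Algebra K F] : Prop :=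
  ∃ S : Set F, S.Finite ∧
    (∀ x ∈ S, ∃ c : ℕ, c ≠ 0 ∧ (∀ l : ℕ, l.Prime → l ∣ c → l ∈ T) ∧ x ^ p = (c : F)) ∧
    IntermediateField.adjoin K S = ⊤

theorem isRadical_self (T : Set ℕ) (p : ℕ) (K : Type) [Field K] : IsRadical T p K K := by
  refine ⟨∅, Set.finite_empty, fun x hx => absurd hx (Set.notMem_empty x), ?_⟩
  rw [eq_top_iff]
  intro x _
  exact (IntermediateField.adjoin K ∅).algebraMap_mem x

theorem IsRadical.trans {T : Set ℕ} {p : ℕ} {K L M : Type} [Field K] [Field L] [Field M]
    [Algebra K L] [Algebra L M] [Algebra K M] [IsScalarTower K L M]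
    (h : IsRadical T p K L) (h' : IsRadical T p L M) : IsRadical T p K M := by
  classical
  obtain ⟨S, hS, hS1, hS2⟩ := h
  obtain ⟨S', hS', hS1', hS2'⟩ := h'
  refine ⟨(algebraMap L M) '' S ∪ S', (hS.image _).union hS', ?_, ?_⟩
  · rintro x (⟨y, hy, rfl⟩ | hx)
    · obtain ⟨c, h1, h2, h3⟩ := hS1 y hy
      exact ⟨c, h1, h2, by rw [← map_pow, h3, map_natCast]⟩
    · exact hS1' x hx
  · set A := IntermediateField.adjoin K ((algebraMap L M) '' S ∪ S') with hA
    have hL : ∀ y : L, algebraMap L M y ∈ A := by
      intro y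
      have h1 : y ∈ IntermediateField.adjoin K S := by rw [hS2]; trivial
      have h2 : algebraMap L M y ∈
          (IntermediateField.adjoin K S).map (IsScalarTower.toAlgHom K L M) :=
        ⟨y, h1, rfl⟩
      rw [IntermediateField.adjoin_map] at h2
      refine IntermediateField.adjoin.mono K _ _ ?_ h2
      exact Set.subset_union_left
    let B : IntermediateField L M :=
      { A.toSubfield with
        algebraMap_mem' := hL }
    have hB : IntermediateField.adjoin L S' ≤ B := by
      rw [IntermediateField.adjoin_le_iff]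
      intro x hx
      exact IntermediateField.subset_adjoin K _ (Set.mem_union_right _ hx)
    rw [eq_top_iff]
    intro x _
    have h1 : x ∈ IntermediateField.adjoin L S' := by rw [hS2']; trivial
    exact hB h1

theorem isRadical_rd {T : Set ℕ} {p : ℕ} {L : Type} [Field L] [NumberField L] {c : ℕ}
    [h : Fact (Irreducible (pol p (c : L)))] (hc : c ≠ 0)
    (hT : ∀ l : ℕ, l.Prime → l ∣ c → l ∈ T) :
    IsRadical T p L (AdjoinRoot (pol p (c : L))) := by
  refine ⟨{AdjoinRoot.root _}, Set.finite_singleton _, ?_, ?_⟩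
  · rintro x rfl
    refine ⟨c, hc, hT, ?_⟩
    have h1 := AdjoinRoot.eval₂_root (pol p (c : L))
    unfold pol at h1
    rw [eval₂_sub, eval₂_pow, eval₂_X, eval₂_C, sub_eq_zero, map_natCast] at h1
    exact h1
  · rw [eq_top_iff]
    intro x _
    have h1 : x ∈ Algebra.adjoin L {AdjoinRoot.root (pol p (c : L))} := by
      rw [AdjoinRoot.adjoinRoot_eq_top]
      trivial
    exact IntermediateField.algebra_adjoin_le_adjoin L _ h1

end Pool.Agent.Q5.BR
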