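import Mathlib

/-! The rank of the invariants of a finite group acting on an abelian group. -/

set_option autoImplicit false

namespace Pool.Agent.Q5.BR

open TensorProduct

section
variable {H A : Type} [Group H] [AddCommGroup A]

/-- the complexification -/
noncomputable def cx (ρ : Representation ℤ H A) : Representation ℂ H (ℂ ⊗[ℤ] A) where
  toFun h := LinearMap.baseChange ℂ (ρ h)
  map_one' := by
    rw [map_one]
    change LinearMap.baseChange ℂ (LinearMap.id : A →ₗ[ℤ] A) = _
    rw [LinearMap.baseChange_id]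
    rfl
  map_mul' g h := by
    rw [map_mul]
    change LinearMap.baseChange ℂ ((ρ g) ∘ₗ (ρ h)) = _
    rw [LinearMap.baseChange_comp]
    rfl

theorem cx_apply (ρ : Representation ℤ H A) (h : H) (c : ℂ) (a : A) :
    cx ρ h (c ⊗ₜ a) = c ⊗ₜ (ρ h a) := rfl

theorem finrank_inv [Finite H] (ρ : Representation ℤ H A) :
    Module.finrank ℂ (cx ρ).invariants = Module.finrank ℂ (ℂ ⊗[ℤ] ρ.invariants) := by
  classical
  have := Fintype.ofFinite H
  let φ : (ℂ ⊗[ℤ] ρ.invariants) →ₗ[ℂ] (ℂ ⊗[ℤ] A) := LinearMap.baseChange ℂ ρ.invariants.subtype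
  have hφ : Function.Injective φ := by
    have h1 : Function.Injective (LinearMap.lTensor ℂ ρ.invariants.subtype) :=
      Module.Flat.lTensor_preserves_injective_linearMap (M := ℂ) _ ρ.invariants.injective_subtype
    exact h1
  have hcard : (Nat.card H : ℂ) ≠ 0 := by exact_mod_cast Nat.card_pos.ne'
  have hsum : ∀ v : ℂ ⊗[ℤ] A, ∑ h : H, cx ρ h v ∈ LinearMap.range φ := by
    intro v
    induction v with
    | zero => simp
    | add x y hx hy =>
      simp only [map_add, Finset.sum_add_distrib]
      exact Submodule.add_mem _ hx hy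
    | tmul c a =>
      have h2 : ∑ h : H, ρ h a ∈ ρ.invariants := by
        intro g
        rw [map_sum]
        have h3 : ∀ h : H, ρ g (ρ h a) = ρ (g * h) a := fun h => by rw [map_mul]; rfl
        simp only [h3]
        exact Equiv.sum_comp (Equiv.mulLeft g) (fun h => ρ h a)
      refine ⟨c ⊗ₜ ⟨_, h2⟩, ?_⟩
      change c ⊗ₜ (∑ h : H, ρ h a) = _
      rw [TensorProduct.tmul_sum]
      rfl
  have hrange : LinearMap.range φ = (cx ρ).invariants := by
    apply le_antisymm
    · rintro _ ⟨v, rfl⟩ g
      induction v with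
      | zero => simp
      | add x y hx hy => rw [map_add, map_add, hx, hy]
      | tmul c a =>
        change c ⊗ₜ (ρ g a.1) = c ⊗ₜ a.1
        rw [a.2 g]
    · intro v hv
      have h4 : ∑ h : H, cx ρ h v = (Nat.card H : ℂ) • v := by
        rw [Finset.sum_congr rfl fun h _ => hv h, Finset.sum_const, Finset.card_univ,
          Nat.card_eq_fintype_card, ← Nat.cast_smul_eq_nsmul ℂ]
      have h5 := (LinearMap.range φ).smul_mem (Nat.card H : ℂ)⁻¹ (hsum v)
      rwa [h4, smul_smul, inv_mul_cancel₀ hcard, one_smul] at h5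
  rw [← hrange]
  exact (LinearEquiv.ofInjective φ hφ).finrank_eq.symm

end

end Pool.Agent.Q5.BR
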