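import Pool.Agent.H26.Lib.R_pool_sql_team_seeded_3997aac3.Q5.BR.Rel

/-! Radical extensions `K(c^{1/p})`, `K(a^{1/p}, b^{1/p})` and the relation between them. -/

set_option autoImplicit false
set_option linter.unusedSectionVars false

namespace Pool.Agent.Q5.BR

open NumberField IsDedekindDomain Filter Pool.Agent.W401.Cheb Pool.Agent.W353.NF Polynomial

/-- a prime of a given infinite set that is not a `p`-th power in `L` -/
theorem exists_prime_not_pow (L : Type) [Field L] [NumberField L] {p : ℕ} (hp : 2 ≤ p)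
    {T : Set ℕ} (hpr : ∀ l ∈ T, l.Prime) (hinf : T.Infinite) :
    ∃ l ∈ T, ∀ x : L, x ^ p ≠ (l : L) := by
  classical
  by_contra hcon
  push Not at hcon
  have h1 : ∀ l : T, ∃ P : Ideal (𝓞 L), P ∣ differentIdeal ℤ (𝓞 L) ∧ P.IsPrime ∧
      ((l : ℕ) : 𝓞 L) ∈ P := by
    intro l
    have hl := hpr l l.2
    obtain ⟨x, hx⟩ := hcon l l.2
    have hxi : IsIntegral ℤ x := by
      have h2 : IsIntegral ℤ (x ^ p) := by
        rw [hx, show ((l : ℕ) : L) = algebraMap ℤ L ((l : ℕ) : ℤ) by simp]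
        exact isIntegral_algebraMap
      exact h2.of_pow (by omega)
    let y : 𝓞 L := ⟨x, hxi⟩
    have hy : y ^ p = ((l : ℕ) : 𝓞 L) := by
      apply RingOfIntegers.ext
      have e1 : ((y ^ p : 𝓞 L) : L) = x ^ p := map_pow (algebraMap (𝓞 L) L) y p
      have e2 : ((((l : ℕ) : 𝓞 L)) : L) = ((l : ℕ) : L) := map_natCast (algebraMap (𝓞 L) L) _
      rw [e1, e2]
      exact hx
    have hne : Ideal.span {((l : ℕ) : 𝓞 L)} ≠ ⊤ := by
      intro h
      rw [Ideal.span_singleton_eq_top] at h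
      have h3 : IsUnit ((l : ℕ) : ℤ) := by
        have h4 := h.map (Algebra.norm ℤ)
        rw [show ((l : ℕ) : 𝓞 L) = algebraMap ℤ (𝓞 L) ((l : ℕ) : ℤ) by simp,
          Algebra.norm_algebraMap, isUnit_pow_iff (Module.finrank_pos.ne')] at h4
        exact h4
      rw [Int.isUnit_iff] at h3
      have := hl.two_le
      omega
    obtain ⟨P, hP, hle⟩ := Ideal.exists_le_maximal _ hne
    have hlP : ((l : ℕ) : 𝓞 L) ∈ P := hle (Ideal.mem_span_singleton_self _)
    have hyP : y ∈ P := hP.isPrime.mem_of_pow_mem p (by rw [hy]; exact hlP)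
    have hlm : (Ideal.span {((l : ℕ) : ℤ)}).IsMaximal := by
      have : Fact (l : ℕ).Prime := ⟨hl⟩
      exact Int.ideal_span_isMaximal_of_prime _
    have hl0 : Ideal.span {((l : ℕ) : ℤ)} ≠ ⊥ := by
      rw [Ne, Ideal.span_singleton_eq_bot]
      exact_mod_cast hl.ne_zero
    refine ⟨P, ?_, hP.isPrime, hlP⟩
    have h5 := pow_sub_one_dvd_differentIdeal (A := ℤ) (B := 𝓞 L)
      (p := Ideal.span {((l : ℕ) : ℤ)}) P 2 hl0 (by
        rw [Ideal.map_span, Set.image_singleton, Ideal.dvd_span_singleton]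
        have h6 : algebraMap ℤ (𝓞 L) ((l : ℕ) : ℤ) = y ^ p := by rw [hy]; simp
        rw [h6]
        exact Ideal.pow_le_pow_right hp (Ideal.pow_mem_pow hyP p))
    simpa using h5
  choose P hP1 hP2 hP3 using h1
  have hinj : Function.Injective P := by
    intro l l' hll
    by_contra hne
    have hc : Nat.Coprime (l : ℕ) (l' : ℕ) := (Nat.coprime_primes (hpr l l.2) (hpr l' l'.2)).2 fun h =>
      hne (Subtype.ext h)
    have h6 : (1 : 𝓞 L) ∈ P l := by
      have h7 := Nat.isCoprime_iff_coprime.2 hc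
      obtain ⟨u, v, huv⟩ := h7
      have h8 := congrArg (fun z : ℤ => (z : 𝓞 L)) huv
      simp only [Int.cast_add, Int.cast_mul, Int.cast_natCast, Int.cast_one] at h8
      rw [← h8]
      refine (P l).add_mem ((P l).mul_mem_left _ (hP3 l)) ((P l).mul_mem_left _ ?_)
      rw [hll]
      exact hP3 l'
    exact (hP2 l).ne_top ((Ideal.eq_top_iff_one _).2 h6)
  have : Finite T := by
    have hne : differentIdeal ℤ (𝓞 L) ≠ 0 := differentIdeal_ne_bot
    have := UniqueFactorizationMonoid.fintypeSubtypeDvd (differentIdeal ℤ (𝓞 L)) hne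
    exact Finite.of_injective (fun l : T =>
      (⟨P l, hP1 l⟩ : {P : Ideal (𝓞 L) // P ∣ differentIdeal ℤ (𝓞 L)}))
      (fun l l' h => hinj (congrArg Subtype.val h))
  exact hinf (Set.toFinite T)

end Pool.Agent.Q5.BR
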