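import Pool.Agent.H26.Lib.R_pool_sql_team_seeded_3997aac3.Q5.BR.Inv
import Pool.Agent.H26.Lib.R_pool_sql_team_seeded_3997aac3.Q5.BR.RadRel
import Pool.Agent.H26.Lib.R_pool_sql_team_seeded_3997aac3.Q286.EQ.MW
import Pool.Agent.H26.Lib.R_pool_sql_team_seeded_3997aac3.Q286.EQ.Rk

/-! The ranks of an elliptic curve over the fields in a relation. -/

set_option autoImplicit false
set_option linter.unusedSectionVars false

namespace Pool.Agent.Q5.BR

open WeierstrassCurve TensorProduct NumberField Pool.Agent.W353.NF Pool.Agent.W401.Cheb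
open scoped Classical

section
variable {K N : Type} [Field K] [NumberField K] [Field N] [NumberField N] [Algebra K N]

/-- the action of the Galois group on the points -/
noncomputable def rep (E : WeierstrassCurve K) (N : Type) [Field N] [Algebra K N] :
    Representation ℤ (N ≃ₐ[K] N) (E.baseChange N).toAffine.Point where
  toFun g := (Affine.Point.map (W' := E.toAffine) (g : N →ₐ[K] N)).toIntLinearMap
  map_one' := by
    ext P
    match P with
    | 0 => rfl
    | .some _ _ _ => rfl
  map_mul' g h := by
    ext P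
    match P with
    | 0 => rfl
    | .some _ _ _ => rfl

theorem rep_apply (E : WeierstrassCurve K) (g : N ≃ₐ[K] N)
    (P : (E.baseChange N).toAffine.Point) :
    rep E N g P = Affine.Point.map (W' := E.toAffine) (g : N →ₐ[K] N) P := rfl

/-- the action of a subgroup -/
noncomputable def repR (E : WeierstrassCurve K) (H : Subgroup (N ≃ₐ[K] N)) :
    Representation ℤ H (E.baseChange N).toAffine.Point := (rep E N).comp H.subtype

variable {F : Type} [Field F] [NumberField F] [Algebra K F]

theorem mem_fixing {g : N ≃ₐ[K] N} {i : F →ₐ[K] N} :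
    g ∈ i.fieldRange.fixingSubgroup ↔ (g : N →ₐ[K] N).comp i = i := by
  constructor
  · intro h
    ext x
    exact h ⟨i x, ⟨x, rfl⟩⟩
  · rintro h ⟨_, ⟨x, rfl⟩⟩
    exact DFunLike.congr_fun h x

theorem invariants_eq (E : WeierstrassCurve K) [IsGalois K N] (i : F →ₐ[K] N) :
    (repR E i.fieldRange.fixingSubgroup).invariants =
      LinearMap.range (Affine.Point.map (W' := E.toAffine) i).toIntLinearMap := by
  have hfd : FiniteDimensional K N := inferInstance
  apply le_antisymm
  · intro P hP
    have hP' : ∀ g : N ≃ₐ[K] N, g ∈ i.fieldRange.fixingSubgroup →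
        Affine.Point.map (W' := E.toAffine) (g : N →ₐ[K] N) P = P := fun g hg => hP ⟨g, hg⟩
    match P with
    | 0 => exact ⟨0, map_zero _⟩
    | .some x y h =>
      have hx : ∀ g : N ≃ₐ[K] N, g ∈ i.fieldRange.fixingSubgroup → g x = x ∧ g y = y := by
        intro g hg
        have h1 := hP' g hg
        rw [Affine.Point.map_some] at h1
        have h2 := Affine.Point.some.inj h1
        exact ⟨h2.1, h2.2⟩
      have hmem : ∀ z : N, (∀ g : N ≃ₐ[K] N, g ∈ i.fieldRange.fixingSubgroup → g z = z) →
          z ∈ i.fieldRange := by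
        intro z hz
        rw [← IsGalois.fixedField_fixingSubgroup i.fieldRange]
        rw [IntermediateField.mem_fixedField_iff]
        intro g hg
        exact hz g hg
      obtain ⟨x', hx'⟩ := hmem x (fun g hg => (hx g hg).1)
      obtain ⟨y', hy'⟩ := hmem y (fun g hg => (hx g hg).2)
      change i x' = x at hx'
      change i y' = y at hy'
      subst hx' hy'
      have hns : (E.baseChange F).toAffine.Nonsingular x' y' :=
        (E.toAffine.baseChange_nonsingular i.injective x' y').1 h
      exact ⟨.some x' y' hns, rfl⟩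
  · rintro _ ⟨Q, rfl⟩ g
    change Affine.Point.map (W' := E.toAffine) ((g : N ≃ₐ[K] N) : N →ₐ[K] N)
      (Affine.Point.map (W' := E.toAffine) i Q) = Affine.Point.map (W' := E.toAffine) i Q
    rw [Affine.Point.map_map, mem_fixing.1 g.2]

theorem finrank_invariants (E : WeierstrassCurve K) [IsGalois K N] (i : F →ₐ[K] N) :
    Module.finrank ℤ (repR E i.fieldRange.fixingSubgroup).invariants =
      Module.finrank ℤ (E.baseChange F).toAffine.Point := by
  rw [invariants_eq E i]
  have hinj : Function.Injective (Affine.Point.map (W' := E.toAffine) i).toIntLinearMap :=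
    Affine.Point.map_injective (W' := E.toAffine) i
  exact (LinearEquiv.ofInjective _ hinj).finrank_eq.symm

/-- **The rank as a mean value.** -/
theorem rank_sum {E : WeierstrassCurve K} (hE : E.IsElliptic) [IsGalois K N]
    (hcard : Nat.card (F →ₐ[K] N) = Module.finrank K F) :
    (Nat.card (N ≃ₐ[K] N) : ℂ) * (Module.finrank ℤ (E.baseChange F).toAffine.Point : ℂ) =
      ∑ g : N ≃ₐ[K] N, (cx (rep E N)).character g *
        (Nat.card {i : F →ₐ[K] N // (g : N →ₐ[K] N).comp i = i} : ℂ) := by
  have hfd : FiniteDimensional K N := inferInstance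
  have hfdF : FiniteDimensional K F := inferInstance
  have hfg : AddGroup.FG (E.baseChange N).toAffine.Point := by
    refine Pool.Agent.Q286.EQ.mordell_weil N _ ?_
    change (E.map (algebraMap K N)).Δ ≠ 0
    rw [WeierstrassCurve.map_Δ]
    intro h
    exact E.isUnit_Δ.ne_zero ((map_eq_zero_iff _ (algebraMap K N).injective).1 h)
  have hfin : Module.Finite ℂ (ℂ ⊗[ℤ] (E.baseChange N).toAffine.Point) :=
    Pool.Agent.Q286.EQ.finite_complex _ hfg
  have hfe : Finite (F →ₐ[K] N) := inferInstance
  have := Fintype.ofFinite (F →ₐ[K] N)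
  have key : ∀ i : F →ₐ[K] N, (Nat.card i.fieldRange.fixingSubgroup : ℂ) *
      (Module.finrank ℤ (E.baseChange F).toAffine.Point : ℂ) =
      ∑ g : N ≃ₐ[K] N, if (g : N →ₐ[K] N).comp i = i then (cx (rep E N)).character g else 0 := by
    intro i
    set H := i.fieldRange.fixingSubgroup with hH
    have hFH : Fintype H := Fintype.ofFinite H
    have hc0 : (Nat.card H : ℂ) ≠ 0 := by exact_mod_cast Nat.card_pos.ne'
    let _ : Invertible (Nat.card H : ℂ) := invertibleOfNonzero hc0
    have h1 := Representation.card_inv_mul_sum_char_eq_finrank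
      (cx (repR E H))
    rw [finrank_inv, Pool.Agent.Q286.EQ.finrank_complex, finrank_invariants] at h1
    rw [← h1, ← mul_assoc, mul_inv_cancel₀ hc0, one_mul, ← Finset.sum_filter]
    have h2 : ∀ g : N ≃ₐ[K] N, g ∈ Finset.univ.filter (fun g : N ≃ₐ[K] N =>
        (g : N →ₐ[K] N).comp i = i) ↔ g ∈ H := by
      intro g
      rw [Finset.mem_filter, hH, mem_fixing]
      simp
    rw [Finset.sum_subtype _ h2 (fun g => (cx (rep E N)).character g)]
    rfl
  have hstab : ∀ i : F →ₐ[K] N, (Module.finrank K F) * Nat.card i.fieldRange.fixingSubgroup =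
      Nat.card (N ≃ₐ[K] N) := by
    intro i
    rw [IsGalois.card_fixingSubgroup_eq_finrank, IsGalois.card_aut_eq_finrank,
      ← Module.finrank_mul_finrank K i.fieldRange N]
    congr 1
    exact (AlgEquiv.ofInjectiveField i).toLinearEquiv.finrank_eq
  have h3 : ∀ g : N ≃ₐ[K] N, (Nat.card {i : F →ₐ[K] N // (g : N →ₐ[K] N).comp i = i} : ℂ) =
      ∑ i : F →ₐ[K] N, if (g : N →ₐ[K] N).comp i = i then 1 else 0 := by
    intro g
    rw [Finset.sum_boole, Nat.card_eq_fintype_card, Fintype.card_subtype]
  simp only [h3, Finset.mul_sum, mul_ite, mul_one, mul_zero]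
  rw [Finset.sum_comm, ← Finset.sum_congr rfl fun i _ => key i, ← Finset.sum_mul]
  congr 1
  have hF0 : (Module.finrank K F : ℂ) ≠ 0 := by exact_mod_cast Module.finrank_pos.ne'
  have h4 : ∀ i : F →ₐ[K] N, (Nat.card i.fieldRange.fixingSubgroup : ℂ) =
      (Nat.card (N ≃ₐ[K] N) : ℂ) / (Module.finrank K F : ℂ) := by
    intro i
    rw [eq_div_iff hF0, ← hstab i]
    push_cast
    ring
  rw [Finset.sum_congr rfl fun i _ => h4 i, Finset.sum_const, Finset.card_univ,
    ← Nat.card_eq_fintype_card, hcard, nsmul_eq_mul]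
  field_simp

end

end Pool.Agent.Q5.BR
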