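import Pool.Agent.H26.Lib.R_pool_sql_team_seeded_3997aac3.Q5.BR.Frob
import Pool.Agent.H46.Lib.R_seed8.H341R2.NF.TwistEC

/-! Relations between the permutation characters of extension fields, and the primes above `v`. -/

set_option autoImplicit false
set_option linter.unusedSectionVars false

namespace Pool.Agent.Q5.BR

open NumberField IsDedekindDomain Filter Pool.Agent.W401.Cheb Pool.Agent.W353.NF

/-- a finite extension of `K` -/
structure Ext (K : Type) [Field K] [NumberField K] where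
  F : Type
  [fF : Field F]
  [nF : NumberField F]
  [aF : Algebra K F]

attribute [instance] Ext.fF Ext.nF Ext.aF

section
variable {K F : Type} [Field K] [NumberField K] [Field F] [NumberField F] [Algebra K F]

theorem above_finite (v : HeightOneSpectrum (𝓞 K)) :
    {w : HeightOneSpectrum (𝓞 F) | w.under (𝓞 K) = v}.Finite := by
  have hvm : v.asIdeal.IsMaximal := v.isMaximal
  have h1 : (v.asIdeal.primesOver (𝓞 F)).Finite := IsDedekindDomain.primesOver_finite v.asIdeal (𝓞 F)
  refine Set.Finite.of_finite_image (f := fun w : HeightOneSpectrum (𝓞 F) => w.asIdeal)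
    (h1.subset ?_) ?_
  · rintro _ ⟨w, hw, rfl⟩
    refine ⟨w.isPrime, ⟨?_⟩⟩
    rw [← (hw : w.under (𝓞 K) = v)]
    rfl
  · intro w _ w' _ h
    exact HeightOneSpectrum.ext h

/-- the primes of `F` above `v` -/
noncomputable def above (F : Type) {K : Type} [Field K] [NumberField K] [Field F] [NumberField F]
    [Algebra K F] (v : HeightOneSpectrum (𝓞 K)) : Finset (HeightOneSpectrum (𝓞 F)) :=
  (above_finite (F := F) v).toFinset

theorem mem_above {v : HeightOneSpectrum (𝓞 K)} {w : HeightOneSpectrum (𝓞 F)} :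
    w ∈ above F v ↔ w.under (𝓞 K) = v := by
  unfold above
  rw [Set.Finite.mem_toFinset]
  rfl

theorem fixn_pow {v : HeightOneSpectrum (𝓞 K)} {e : 𝓞 K} (he : Sep K F e)
    (hev : e ∉ v.asIdeal) {σ : GK K} (hσ : IsFrob v σ) (n : ℕ) :
    fixn K F (σ ^ n) = ∑ w ∈ above F v, if rdeg K w ∣ n then rdeg K w else 0 := by
  classical
  obtain ⟨Q, hQm, hQv, hQ⟩ := hσ
  have h1 : ∀ w ∈ above F v, (if rdeg K w ∣ n then rdeg K w else 0) =
      Nat.card {i : F →ₐ[K] AlgebraicClosure K // (∀ a : 𝓞 F, oi i a ∈ Q ↔ a ∈ w.asIdeal) ∧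
        act K F (σ ^ n) i = i} := fun w hw =>
    (card_fiber v e he hev σ hQm hQv hQ w (mem_above.1 hw) n).symm
  rw [Finset.sum_congr rfl h1]
  unfold fixn
  -- the prime of an embedding
  have hex : ∀ i : F →ₐ[K] AlgebraicClosure K, ∃ w : HeightOneSpectrum (𝓞 F),
      w.under (𝓞 K) = v ∧ ∀ a : 𝓞 F, oi i a ∈ Q ↔ a ∈ w.asIdeal := by
    intro i
    have hQp : Q.IsPrime := hQm.isPrime
    have hc : (Q.comap (oi i)).comap (algebraMap (𝓞 K) (𝓞 F)) = v.asIdeal := by
      rw [← hQv]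
      ext a
      rw [Ideal.mem_comap, Ideal.mem_comap, Ideal.mem_comap, oi_alg]
    refine ⟨⟨Q.comap (oi i), Ideal.comap_isPrime _ _, fun h => v.ne_bot ?_⟩, ?_, fun a => Iff.rfl⟩
    · rw [← hc, h]
      rw [← RingHom.ker_eq_comap_bot]
      exact (RingHom.injective_iff_ker_eq_bot _).1
        (FaithfulSMul.algebraMap_injective (𝓞 K) (𝓞 F))
    · apply HeightOneSpectrum.ext
      exact hc
  choose W hW1 hW2 using hex
  have hWu : ∀ i w, (∀ a : 𝓞 F, oi i a ∈ Q ↔ a ∈ w.asIdeal) → W i = w := by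
    intro i w h
    apply HeightOneSpectrum.ext
    ext a
    rw [← hW2, h]
  have e1 : {i : F →ₐ[K] AlgebraicClosure K // act K F (σ ^ n) i = i} ≃
      Σ w : {w // w ∈ above F v}, {i : F →ₐ[K] AlgebraicClosure K //
        (∀ a : 𝓞 F, oi i a ∈ Q ↔ a ∈ w.1.asIdeal) ∧ act K F (σ ^ n) i = i} :=
    { toFun := fun i => ⟨⟨W i.1, mem_above.2 (hW1 i.1)⟩, ⟨i.1, hW2 i.1, i.2⟩⟩
      invFun := fun x => ⟨x.2.1, x.2.2.2⟩
      left_inv := fun i => rfl
      right_inv := by
        rintro ⟨⟨w, hw⟩, ⟨i, hi1, hi2⟩⟩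
        obtain rfl := hWu i w hi1
        rfl }
  rw [Nat.card_congr e1, Nat.card_sigma, Finset.sum_coe_sort (above F v) (fun w =>
    Nat.card {i : F →ₐ[K] AlgebraicClosure K // (∀ a : 𝓞 F, oi i a ∈ Q ↔ a ∈ w.asIdeal) ∧
        act K F (σ ^ n) i = i})]

end

section
variable {K : Type} [Field K] [NumberField K] {ι : Type} [Fintype ι]

/-- a relation between the permutation characters -/
def Rel (X : ι → Ext K) (n : ι → ℤ) : Prop :=
  ∀ σ : GK K, ∑ j, n j * (fixn K (X j).F σ : ℤ) = 0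

/-- **The primes above `v` in a relation.** -/
theorem rel_degrees {X : ι → Ext K} {n : ι → ℤ} (h : Rel X n) :
    ∃ S : Finset (HeightOneSpectrum (𝓞 K)), ∀ v ∉ S, ∀ d : ℕ,
      ∑ j, n j * (((above (X j).F v).filter fun w => rdeg K w = d).card : ℤ) = 0 := by
  classical
  choose e he0 he using fun j => separate_all K (X j).F
  have hfin := Pool.Agent.H341R2.EC.finite_mem (K := K)
    (Finset.prod_ne_zero_iff.2 fun j (_ : j ∈ Finset.univ) => he0 j)
  refine ⟨hfin.toFinset, fun v hv => ?_⟩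
  have hev : ∀ j, e j ∉ v.asIdeal := by
    intro j hj
    apply hv
    rw [Set.Finite.mem_toFinset]
    exact v.asIdeal.mem_of_dvd (Finset.dvd_prod_of_mem e (Finset.mem_univ j)) hj
  obtain ⟨σ, hσ⟩ := Pool.Agent.W401.Frob.exists_frob v
  have h1 : ∀ m : ℕ, ∑ j, n j * ((∑ w ∈ above (X j).F v,
      if rdeg K w ∣ m then rdeg K w else 0 : ℕ) : ℤ) = 0 := by
    intro m
    rw [← h (σ ^ m)]
    refine Finset.sum_congr rfl fun j _ => ?_
    rw [fixn_pow (he j) (hev j) hσ m]
  intro d
  induction d using Nat.strong_induction_on with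
  | _ d ih =>
    rcases Nat.eq_zero_or_pos d with rfl | hd
    · refine Finset.sum_eq_zero fun j _ => ?_
      rw [Finset.filter_false_of_mem, Finset.card_empty]
      · simp
      · intro w _ hw
        exact (rdeg_pos (K := K) w).ne' hw
    · have h2 : ∀ j, ((∑ w ∈ above (X j).F v, if rdeg K w ∣ d then rdeg K w else 0 : ℕ) : ℤ) =
          ∑ m ∈ d.divisors, (m : ℤ) * (((above (X j).F v).filter fun w => rdeg K w = m).card : ℤ) := by
        intro j
        rw [← Finset.sum_filter, ← Finset.sum_fiberwise_of_maps_to (s := (above (X j).F v).filter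
          fun w => rdeg K w ∣ d) (t := d.divisors) (g := fun w => rdeg K w) (fun w hw => by
            rw [Nat.mem_divisors]
            exact ⟨(Finset.mem_filter.1 hw).2, hd.ne'⟩)]
        push_cast
        refine Finset.sum_congr rfl fun m hm => ?_
        rw [Finset.filter_filter, Finset.sum_congr rfl (g := fun _ => (m : ℤ)), Finset.sum_const,
          nsmul_eq_mul, mul_comm]
        · congr 3
          ext w
          simp only [Finset.mem_filter]
          constructor
          · rintro ⟨h3, _, h4⟩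
            exact ⟨h3, h4⟩
          · rintro ⟨h3, h4⟩
            exact ⟨h3, by rw [h4]; exact Nat.dvd_of_mem_divisors hm, h4⟩
        · intro w hw
          rw [(Finset.mem_filter.1 hw).2.2]
      have h3 := h1 d
      simp only [h2, Finset.mul_sum] at h3
      rw [Finset.sum_comm, ← Nat.cons_self_properDivisors hd.ne', Finset.sum_cons] at h3
      have h4 : ∑ m ∈ d.properDivisors, ∑ j, n j * ((m : ℤ) *
          (((above (X j).F v).filter fun w => rdeg K w = m).card : ℤ)) = 0 := by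
        refine Finset.sum_eq_zero fun m hm => ?_
        have h5 := ih m (Nat.mem_properDivisors.1 hm).2
        have h6 : ∑ j, n j * ((m : ℤ) * (((above (X j).F v).filter fun w => rdeg K w = m).card : ℤ)) =
            (m : ℤ) * ∑ j, n j * (((above (X j).F v).filter fun w => rdeg K w = m).card : ℤ) := by
          rw [Finset.mul_sum]
          exact Finset.sum_congr rfl fun j _ => by ring
        rw [h6, h5, mul_zero]
      rw [h4, add_zero] at h3
      have h6 : ∑ j, n j * ((d : ℤ) * (((above (X j).F v).filter fun w => rdeg K w = d).card : ℤ)) =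
          (d : ℤ) * ∑ j, n j * (((above (X j).F v).filter fun w => rdeg K w = d).card : ℤ) := by
        rw [Finset.mul_sum]
        exact Finset.sum_congr rfl fun j _ => by ring
      rw [h6] at h3
      have hd' : (d : ℤ) ≠ 0 := by exact_mod_cast hd.ne'
      exact (mul_eq_zero.1 h3).resolve_left hd'

theorem rel_sum {X : ι → Ext K} {n : ι → ℤ} {v : HeightOneSpectrum (𝓞 K)}
    (h : ∀ d : ℕ, ∑ j, n j * (((above (X j).F v).filter fun w => rdeg K w = d).card : ℤ) = 0)
    (Λ : ℕ → ℂ) :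
    ∑ j, (n j : ℂ) * ∑ w ∈ above (X j).F v, Λ (rdeg K w) = 0 := by
  classical
  set B : ℕ := ∑ j, ∑ w ∈ above (X j).F v, rdeg K w with hB
  have h1 : ∀ j, ∀ w ∈ above (X j).F v, rdeg K w ∈ Finset.range (B + 1) := by
    intro j w hw
    rw [Finset.mem_range, Nat.lt_succ_iff, hB]
    exact (Finset.single_le_sum (f := fun w => rdeg K w) (fun _ _ => Nat.zero_le _) hw).trans
      (Finset.single_le_sum (f := fun j => ∑ w ∈ above (X j).F v, rdeg K w)
        (fun _ _ => Nat.zero_le _) (Finset.mem_univ j))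
  have h2 : ∀ j, ∑ w ∈ above (X j).F v, Λ (rdeg K w) = ∑ d ∈ Finset.range (B + 1),
      (((above (X j).F v).filter fun w => rdeg K w = d).card : ℂ) * Λ d := by
    intro j
    rw [← Finset.sum_fiberwise_of_maps_to (h1 j)]
    refine Finset.sum_congr rfl fun d _ => ?_
    rw [Finset.sum_congr rfl (g := fun _ => Λ d), Finset.sum_const, nsmul_eq_mul]
    intro w hw
    rw [(Finset.mem_filter.1 hw).2]
  simp only [h2, Finset.mul_sum]
  rw [Finset.sum_comm]
  refine Finset.sum_eq_zero fun d _ => ?_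
  have h3 := congrArg (fun z : ℤ => (z : ℂ)) (h d)
  simp only [Int.cast_sum, Int.cast_mul, Int.cast_natCast, Int.cast_zero] at h3
  calc ∑ j, (n j : ℂ) * ((((above (X j).F v).filter fun w => rdeg K w = d).card : ℂ) * Λ d)
      = (∑ j, (n j : ℂ) * (((above (X j).F v).filter fun w => rdeg K w = d).card : ℂ)) * Λ d := by
        rw [Finset.sum_mul]
        exact Finset.sum_congr rfl fun j _ => by ring
    _ = 0 := by rw [h3, zero_mul]

theorem hasSum_above {F : Type} [Field F] [NumberField F] [Algebra K F]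
    {ℓ : HeightOneSpectrum (𝓞 F) → ℂ} (hℓ : Summable ℓ) :
    HasSum (fun v : HeightOneSpectrum (𝓞 K) => ∑ w ∈ above F v, ℓ w) (∑' w, ℓ w) := by
  classical
  let e := Equiv.sigmaFiberEquiv (fun w : HeightOneSpectrum (𝓞 F) => w.under (𝓞 K))
  have h1 : HasSum (fun x : Σ v, {w : HeightOneSpectrum (𝓞 F) // w.under (𝓞 K) = v} => ℓ x.2.1)
      (∑' w, ℓ w) := (e.hasSum_iff (f := ℓ)).2 hℓ.hasSum
  refine h1.sigma fun v => ?_
  have hf : Finite {w : HeightOneSpectrum (𝓞 F) // w.under (𝓞 K) = v} := above_finite v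
  let _ : Fintype {w : HeightOneSpectrum (𝓞 F) // w.under (𝓞 K) = v} := Fintype.ofFinite _
  have h2 : ∑ w ∈ above F v, ℓ w =
      ∑ w : {w : HeightOneSpectrum (𝓞 F) // w.under (𝓞 K) = v}, ℓ w.1 := by
    refine Finset.sum_subtype _ (fun w => ?_) _
    exact mem_above
  rw [h2]
  exact hasSum_fintype _

/-- **The Euler products in a relation.** -/
theorem euler_rel {X : ι → Ext K} {n : ι → ℤ} (h : Rel X n) :
    ∃ S₀ : Finset (HeightOneSpectrum (𝓞 K)), ∀ S : Finset (HeightOneSpectrum (𝓞 K)), S₀ ⊆ S →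
      ∀ (ℓ : ∀ j, HeightOneSpectrum (𝓞 (X j).F) → ℂ) (Λ : HeightOneSpectrum (𝓞 K) → ℕ → ℂ),
      (∀ j, Summable (ℓ j)) →
      (∀ j w, w.under (𝓞 K) ∉ S → ℓ j w = Λ (w.under (𝓞 K)) (rdeg K w)) →
      ∑ j, (n j : ℂ) * ∑' w, ℓ j w =
        ∑ v ∈ S, ∑ j, (n j : ℂ) * ∑ w ∈ above (X j).F v, ℓ j w := by
  classical
  obtain ⟨S₀, hS₀⟩ := rel_degrees h
  refine ⟨S₀, fun S hS ℓ Λ hℓ hΛ => ?_⟩
  have h1 : HasSum (fun v : HeightOneSpectrum (𝓞 K) => ∑ j, (n j : ℂ) *
      ∑ w ∈ above (X j).F v, ℓ j w) (∑ j, (n j : ℂ) * ∑' w, ℓ j w) :=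
    hasSum_sum fun j _ => (hasSum_above (K := K) (hℓ j)).mul_left _
  refine h1.unique (hasSum_sum_of_ne_finset_zero fun v hv => ?_)
  rw [← rel_sum (hS₀ v fun hv' => hv (hS hv')) (Λ v)]
  refine Finset.sum_congr rfl fun j _ => ?_
  congr 1
  refine Finset.sum_congr rfl fun w hw => ?_
  have hw' := mem_above.1 hw
  rw [hΛ j w (by rw [hw']; exact hv), hw']

end

end Pool.Agent.Q5.BR
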